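import Mathlib
import Pool.Agent.N70.EP.Sh
import Pool.Agent.N70.EP.Si
import Pool.Agent.N70.EQ.Stm

/-!
The geometric group, for labels in an arbitrary finite group.
-/

set_option autoImplicit false
set_option linter.unusedSectionVars false
set_option linter.unusedSimpArgs false

namespace Pool.Agent.N70.EQ

open Polynomial Pool.Agent.H391R2 Pool.Agent.H391R2.T4
open Pool.Agent.N70.EP (Dt0)
open Pool.Agent.N70.AW (St_small tv)
open Pool.Agent.N70.AW.EPc
open Pool.Agent.Y793 (St_gen St_iso St_ext Rl AWr)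

section sols

variable {K Z N ι : Type} [Field K] [CharZero K] [Field Z] [Algebra (RatFunc K) Z] [Algebra K Z]
  [IsScalarTower K (RatFunc K) Z] [FiniteDimensional (RatFunc K) Z] [IsGalois (RatFunc K) Z]
  [Fintype ι] [Field N] [Algebra K N] [IsAlgClosed N]
  {P : Subgroup (Z ≃ₐ[RatFunc K] Z)} {m k d : ℕ} {κ : Option ι → K[X]} {v : Option ι → Z}
  {x : Option ι → Option ι → Z} {e es : Fin m → Z} {S : Matrix (Fin m) (Fin m) K[X]}
  {M L : Option ι → Option ι → Matrix (Fin m) (Fin m) K[X]}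
  (D : Dt0 P m k d κ v x e es S M L)
  {k₀ : Type} [Field k₀] [Algebra K k₀] [Algebra k₀ N] [IsScalarTower K k₀ N]
  [IsAlgClosed k₀] [Algebra.IsAlgebraic K k₀]
  (η : Pool.Agent.N70.AW.Ix ι → N) (hη : IsTranscendenceBasis k₀ η)

include D hη

theorem geoN (hgen : St_gen) (hiso : St_iso) (hext : St_ext) (hgc : St_gc) (hkum : St_kum)
    (hsm : St_small) (hm0 : 0 < m)
    (hreg : ∀ y : Z, IsAlgebraic K y → y ∈ Set.range (algebraMap K Z)) (t₀ : K)
    (hstar : ∀ (z : Z) (a : K), a ≠ 0 →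
      z ^ 2 ≠ algebraMap (RatFunc K) Z (RatFunc.C a * (RatFunc.X - RatFunc.C t₀)))
    (g : Fin m → (Z ≃ₐ[RatFunc K] Z))
    (hg : Function.Bijective (fun t => (g t : (Z ≃ₐ[RatFunc K] Z) ⧸ P)))
    {r : Fin (m * (2 * k + 1)) → N} {φ : Fin (m * (2 * k + 1)) → (Z →ₐ[K] N)}
    (Y : Sy κ x M k₀ (fun i => η (Sum.inl i)) (η (Sum.inr ())) (m * (2 * k + 1)) r φ)
    {G : Type} [Group G] [Finite G] [HasEnoughRootsOfUnity K (Nat.card G)]
    (hgs : ∀ H : Subgroup (Wr G (m * (2 * k + 1))),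
      (∀ x ∈ H, Equiv.Perm.sign x.right = 1) →
      (∀ a b a' b' : Fin (m * (2 * k + 1)), a ≠ b → a' ≠ b' → ∀ g h : G, ∃ x ∈ H,
        x.right a = a' ∧ x.right b = b' ∧ x.left a' = g ∧ x.left b' = h) →
      (∃ x ∈ H, x.right.IsThreeCycle) →
      ∀ w : Wr G (m * (2 * k + 1)), Equiv.Perm.sign w.right = 1 →
        (∏ i, Abelianization.of (w.left i)) = 1 → w ∈ H)
    (β : P →* G) (hβ : Function.Surjective β) (htrn : TrnG P β)
    (hsgn : ∀ σ : N ≃ₐ[k₀] N, (∀ i, σ (η i) = η i) →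
      ∀ y : Wr P (m * (2 * k + 1)), Rl r φ σ y → Equiv.Perm.sign y.right = 1)
    (b : ℕ) (hb : b * b < m * (2 * k + 1))
    (h3 : ∃ (σ : N ≃ₐ[k₀] N) (π : Equiv.Perm (Fin (m * (2 * k + 1)))), (∀ i, σ (η i) = η i) ∧
      (∀ i, σ (r i) = r (π i)) ∧ π ≠ 1 ∧ π.support.card ≤ b)
    (y : Wr G (m * (2 * k + 1))) (hy : y ∈ AWr G (m * (2 * k + 1))) :
    ∃ (σ : N ≃ₐ[k₀] N) (y' : Wr P (m * (2 * k + 1))), (∀ i, σ (η i) = η i) ∧ Rl r φ σ y' ∧
      y'.right = y.right ∧ ∀ j, β (y'.left j) = y.left j := by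
  have htr : ∀ a b a' b' : Fin (m * (2 * k + 1)), a ≠ b → a' ≠ b' → ∀ γ γ' : P, ∃ x ∈ HG η P r φ k₀,
      x.right a = a' ∧ x.right b = b' ∧ x.left a' = γ ∧ x.left b' = γ' := by
    intro a b a' b' hab hab' γ γ'
    have hlp : ∀ (j : Fin (m * (2 * k + 1))) (γ : P),
        Pool.Agent.N70.AW.LPt κ k₀ x (fun i => η (Sum.inl i)) (η (Sum.inr ())) (cg (φ j) γ) := by
      intro j γ
      refine lpt_of D ?_
      have h1 : FF κ x (fun i => η (Sum.inl i)) (φ j) = η (Sum.inr ()) := (Y.lp j).hT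
      rw [← h1]
      unfold FF
      rw [cg_tv]
      congr 1
      funext i i'
      rw [cg_apply, D.fix_x i i' γ γ.2]
    obtain ⟨σ, h1, h5, h6⟩ := Pool.Agent.N70.AW.pair_trans D.fm hgen hiso hext η hη hreg t₀ hstar x
      (Y.lp a) (Y.lp b) (hlp a' γ) (hlp b' γ')
      (fun h0 => hab (Y.inj (by rw [← Y.val, ← Y.val, h0])))
      (fun h0 => hab' (Y.inj (by
        rw [cg_tv, cg_tv, Y.val, Y.val] at h0
        exact h0.symm)))
    obtain ⟨y, hy⟩ := exists_x0 D η hη hgen hiso Y (σ.restrictScalars K) h1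
    have ha : y.right a = a' := by
      apply Y.inj
      rw [← (hy a).1, ← Y.val a, ← Y.val a']
      change σ _ = _
      rw [h5, cg_tv]
    have hb : y.right b = b' := by
      apply Y.inj
      rw [← (hy b).1, ← Y.val b, ← Y.val b']
      change σ _ = _
      rw [h6, cg_tv]
    refine ⟨y, ⟨σ, h1, hy⟩, ha, hb, ?_, ?_⟩
    · apply Subtype.ext
      apply AlgEquiv.ext
      intro z
      apply (φ a').injective
      have h7 := (hy a).2 z
      rw [ha] at h7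
      exact h7.symm.trans (h5 z)
    · apply Subtype.ext
      apply AlgEquiv.ext
      intro z
      apply (φ b').injective
      have h7 := (hy b).2 z
      rw [hb] at h7
      exact h7.symm.trans (h6 z)
  have heven : ∀ x ∈ (HG η P r φ k₀).map (Pool.Agent.H391R2.V.wmap (m * (2 * k + 1)) β),
      Equiv.Perm.sign x.right = 1 := by
    rintro _ ⟨y, ⟨σ, h1, h2⟩, rfl⟩
    exact hsgn σ h1 y h2
  have htr2 : ∀ a b a' b' : Fin (m * (2 * k + 1)), a ≠ b → a' ≠ b' → ∀ g h : G,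
      ∃ x ∈ (HG η P r φ k₀).map (Pool.Agent.H391R2.V.wmap (m * (2 * k + 1)) β),
      x.right a = a' ∧ x.right b = b' ∧ x.left a' = g ∧ x.left b' = h := by
    intro a c a' c' hac hac' g h
    obtain ⟨p, rfl⟩ := hβ g
    obtain ⟨q, rfl⟩ := hβ h
    obtain ⟨z, h1, h2, h4, h5, h6⟩ := htr a c a' c' hac hac' p q
    exact ⟨_, Subgroup.mem_map_of_mem _ h1, h2, h4, congrArg β h5, congrArg β h6⟩
  have hthree : ∃ x ∈ (HG η P r φ k₀).map (Pool.Agent.H391R2.V.wmap (m * (2 * k + 1)) β),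
      x.right.IsThreeCycle := by
    refine hsm G (m * (2 * k + 1)) b _ hb ?_ ?_
    · intro a c a' c' hac hac'
      obtain ⟨z, h1, h2, h4, -, -⟩ := htr a c a' c' hac hac' 1 1
      exact ⟨_, Subgroup.mem_map_of_mem _ h1, h2, h4⟩
    · obtain ⟨σ, π, h1, h2, h4, h5⟩ := h3
      obtain ⟨y, hy⟩ := exists_x0 D η hη hgen hiso Y (σ.restrictScalars K) h1
      have h6 : y.right = π := by
        apply Equiv.ext
        intro i
        apply Y.inj
        rw [← (hy i).1, ← h2]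
        rfl
      exact ⟨_, Subgroup.mem_map_of_mem _ ⟨σ, h1, hy⟩, by
        change y.right ≠ 1
        rw [h6]; exact h4, by
        change y.right.support.card ≤ b
        rw [h6]; exact h5⟩
  have hmain : y ∈ (HG η P r φ k₀).map (Pool.Agent.H391R2.V.wmap (m * (2 * k + 1)) β) := by
    refine hgc G K (m * (2 * k + 1)) _ (hgs _ heven htr2 hthree) ?_ y hy
    intro θ hθ
    obtain ⟨σ, z, h1, h2, h4⟩ := hkum K Z N ι P m k d κ v x e es S M L D hm0 hreg g hg k₀ η hη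
      r φ Y G β htrn θ hθ
    exact ⟨_, Subgroup.mem_map_of_mem _ ⟨σ, h1, h2⟩, hsgn σ h1 z h2, h4⟩
  obtain ⟨y', ⟨σ, h1, h2⟩, h4⟩ := Subgroup.mem_map.1 hmain
  refine ⟨σ, y', h1, h2, ?_, fun j => ?_⟩
  · rw [← h4]
    rfl
  · rw [← h4]
    rfl

end sols

end Pool.Agent.N70.EQ
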