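import Mathlib
import Pool.Agent.N70.EQ.Core
import Pool.Agent.N70.EP.Main
import Pool.Agent.N70.EP.Fin
import Pool.Agent.N70.EP.TD

/-!
The main theorem for regular solutions, arbitrary kernels.
-/

set_option autoImplicit false
set_option linter.unusedSectionVars false
set_option linter.unusedSimpArgs false

namespace Pool.Agent.N70.EQ

open Polynomial Pool.Agent.H391R2 Pool.Agent.H391R2.T4
open Pool.Agent.Y793 (AltTw twProj)
open Pool.Agent.N70.EP (SgnIndex exists_rho sgnIndex_comap datT sgnSec sign_sgnSec map_top_of)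
open Pool.Agent.N600.NS (IdxDvd Degs)

/-- The hypotheses on group theory and Kummer theory. -/
structure Hyp : Prop where
  gs : St_gs
  gc : St_gc
  gw : St_gw
  kum : St_kum
  ru : St_ru
  rt : St_rt
  ri : St_ri

theorem mainN (hh : Hyp) (K L : Type) [Field K] [CharZero K] [Field L] [Algebra K L]
    [FiniteDimensional K L] [IsGalois K L] (X : Type) [Group X] [Finite X]
    (π : X →* (L ≃ₐ[K] L)) (hX : RegSol K L X π)
    (P : Subgroup X) (m : ℕ) (hPπ : P.map π = ⊤) (hm : Even m) (hm0 : 0 < m)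
    (χ : (L ≃ₐ[K] L) →* ℤˣ) (hidx : SgnIndex X P m (χ.comp π))
    {B : Type} [Group B] [Finite B] (β : P →* B) (hβ : Function.Surjective β)
    (a : B →* (L ≃ₐ[K] L)) (ha : ∀ p : P, a (β p) = π p) (htrn : Trn π P β a)
    (hroots : HasEnoughRootsOfUnity L (Nat.card a.ker)) :
    ∃ k₀ : ℕ, ∀ k ≥ k₀, RegSol K L (AltTw a χ (m * (2 * k + 1)))
      (twProj a χ (m * (2 * k + 1))) := by
  obtain ⟨Z, i1, i2, i3, i4, i5, i6, i7, i8, γ, hγ, hreg⟩ := hX
  obtain ⟨ρ, δ, hρ0, hδ, hρ⟩ := exists_rho K L χ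
  let π' : (Z ≃ₐ[RatFunc K] Z) →* (L ≃ₐ[K] L) := π.comp (γ : (Z ≃ₐ[RatFunc K] Z) →* X)
  let P' : Subgroup (Z ≃ₐ[RatFunc K] Z) := P.comap (γ : (Z ≃ₐ[RatFunc K] Z) →* X)
  have hmap : P'.map (γ : (Z ≃ₐ[RatFunc K] Z) →* X) = P :=
    Subgroup.map_comap_eq_self_of_surjective γ.surjective P
  have hPπ' : P'.map π' = ⊤ := by
    rw [← Subgroup.map_map, hmap, hPπ]
  let e : P' ≃* P := (γ.subgroupMap P').trans (MulEquiv.subgroupCongr hmap)
  have hidx' : SgnIndex (Z ≃ₐ[RatFunc K] Z) P' m (χ.comp π') := sgnIndex_comap γ P m _ hidx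
  have htrn' : Trn π' P' (β.comp (e : P' →* P)) a := by
    intro ν hν
    obtain ⟨g, h, h1, h2, h3⟩ := htrn ν hν
    have h4 : ∀ c : Z ≃ₐ[RatFunc K] Z, γ (c⁻¹ * γ.symm g * c) = (γ c)⁻¹ * g * γ c := by
      intro c
      rw [map_mul, map_mul, map_inv, MulEquiv.apply_symm_apply]
    refine ⟨γ.symm g, fun c => ?_, ?_, fun c hc => ?_, fun p => ?_⟩
    · change γ (c⁻¹ * γ.symm g * c) ∈ P
      rw [h4]
      exact h _
    · change π (γ (γ.symm g)) = 1
      rw [MulEquiv.apply_symm_apply, h1]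
    · refine Eq.trans ?_ (h2 (γ c) hc)
      change β (e _) = _
      congr 1
      exact Subtype.ext (h4 c)
    · have h5 : g ∈ P := by
        have h6 : γ (γ.symm g) ∈ P := p
        rwa [MulEquiv.apply_symm_apply] at h6
      refine Eq.trans ?_ (h3 h5)
      change β (e _) = _
      congr 1
      exact Subtype.ext (MulEquiv.apply_symm_apply _ _)
  exact coreN Y203.J.t_gen Y203.J.t_iso Y241.WR.t_ext hh.gs hh.gc hh.kum Y793.starL datT
    N24.AW.small N400.AW.HENS.t_hens N945.AW.val π' hγ hreg P' m hPπ' hm hm0 χ hidx' ρ δ hρ0 hδ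
    hρ (β.comp (e : P' →* P)) (hβ.comp e.surjective) a (fun p => ha (e p)) htrn' hroots

section idx

variable (K L : Type) [Field K] [Field L] [Algebra K L]
    [FiniteDimensional K L] [IsGalois K L] {B : Type} [Group B]
    (a : B →* (L ≃ₐ[K] L))

theorem degs_hom {E : Type} [Group E] (a' : E →* (L ≃ₐ[K] L)) (j : B →* E)
    (hj : ∀ x, a' (j x) = a x) {m : ℕ} (h : m ∈ Degs K L B a) : m ∈ Degs K L E a' := by
  obtain ⟨K', i1, i2, i3, h1, L', j1, j2, j3, j4, j5, j6, j7, j8, s, hs⟩ := h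
  refine ⟨K', i1, i2, i3, h1, L', j1, j2, j3, j4, j5, j6, j7, j8, j.comp s, fun σ x => ?_⟩
  have h2 : a' ((j.comp s) σ) = a (s σ) := hj (s σ)
  rw [h2]
  exact hs σ x

theorem idx_hom {E : Type} [Group E] (a' : E →* (L ≃ₐ[K] L)) (j : B →* E)
    (hj : ∀ x, a' (j x) = a x) {n : ℕ} (h : IdxDvd K L B a n) : IdxDvd K L E a' n :=
  fun d hd => h d fun m hm => hd m (degs_hom K L a a' j hj hm)

end idx

section const

variable {H B : Type} [Group H] [Group B] (a : B →* H) (χ : H →* ℤˣ) (q : ℕ)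

/-- Constant elements of the alternating fibre power. -/
def cst (hq : 2 ≤ q) : B →* AltTw a χ q where
  toFun b := ⟨(⟨fun _ => b, sgnSec q hq (χ (a b))⟩, a b), Subgroup.mem_inf.2
    ⟨fun _ => rfl, sign_sgnSec q hq _⟩⟩
  map_one' := by
    apply Subtype.ext
    refine Prod.ext (SemidirectProduct.ext rfl ?_) (map_one a)
    change sgnSec q hq (χ (a 1)) = 1
    rw [map_one, map_one, map_one]
  map_mul' b b' := by
    apply Subtype.ext
    refine Prod.ext (SemidirectProduct.ext rfl ?_) (map_mul a b b')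
    change sgnSec q hq (χ (a (b * b'))) = sgnSec q hq (χ (a b)) * sgnSec q hq (χ (a b'))
    rw [map_mul, map_mul, map_mul]

theorem twProj_cst (hq : 2 ≤ q) (b : B) : twProj a χ q (cst a χ q hq b) = a b := rfl

theorem twProj_surj (ha : Function.Surjective a) (hq : 2 ≤ q) :
    Function.Surjective (twProj a χ q) := fun h => by
  obtain ⟨b, rfl⟩ := ha h
  exact ⟨cst a χ q hq b, rfl⟩

end const

theorem finite_tw {H B : Type} [Group H] [Group B] [Finite H] [Finite B] (a : B →* H)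
    (χ : H →* ℤˣ) (q : ℕ) : Finite (AltTw a χ q) := by
  have h1 : Finite (Wr B q) := finite_wr B q
  infer_instance

section main

variable (K L : Type) [Field K] [CharZero K] [Field L] [Algebra K L]
    [FiniteDimensional K L] [IsGalois K L] {B : Type} [Group B] [Finite B]
    (a : B →* (L ≃ₐ[K] L))

/-- All embedding problems, if there are enough roots of unity in `L`. -/
theorem t6 (hh : Hyp) (ha : Function.Surjective a)
    (hroots : HasEnoughRootsOfUnity L (Nat.card a.ker)) (q : ℕ) (hq : Even q)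
    (hq4 : 4 ≤ q) :
    ∃ r₀ : ℕ, ∀ r ≥ r₀, IdxDvd K L B a r → ∃ k₀ : ℕ, ∀ k ≥ k₀,
      ∀ χ : (L ≃ₐ[K] L) →* ℤˣ, (Odd r ∨ χ = 1) →
        RegSol K L (AltTw a χ (q * r * (2 * k + 1))) (twProj a χ (q * r * (2 * k + 1))) := by
  have hfin := EP.finite_hom (L ≃ₐ[K] L)
  have hq2 : 2 ≤ q := by omega
  have h1 : ∀ χ : (L ≃ₐ[K] L) →* ℤˣ, ∃ r₀ : ℕ, ∀ r ≥ r₀, IdxDvd K L B a r →
      ∃ k₀ : ℕ, ∀ k ≥ k₀, (Odd r ∨ χ = 1) →
        RegSol K L (AltTw a χ (q * r * (2 * k + 1))) (twProj a χ (q * r * (2 * k + 1))) := by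
    intro χ
    have hfE : Finite (AltTw a χ q) := finite_tw a χ q
    obtain ⟨r₁, hr₁⟩ := N600.NS.reg_index K L _ _ (twProj_surj a χ q ha hq2)
    refine ⟨r₁ + 1, fun r hr hidx => ?_⟩
    have hW : Finite (Wr (AltTw a χ q) r) := finite_wr _ _
    have h := (hr₁ r (by omega) (idx_hom K L a (twProj a χ q) (cst a χ q hq2)
      (twProj_cst a χ q hq2) hidx)).2
    by_cases hχ : Odd r ∨ χ = 1
    · obtain ⟨P, β, hβ, hβ2, hi, ht⟩ := hh.gw (L ≃ₐ[K] L) B a ha χ χ q r hq hq4 (by omega)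
        (fun h => by
        rcases hχ with hχ | hχ
        · obtain ⟨s, rfl⟩ := hχ
          rw [pow_succ, pow_mul, Int.units_sq, one_pow, one_mul]
        · subst hχ
          exact (one_pow r).symm)
      have hPtop : P.map (symProj (twProj a χ q) r) = ⊤ := by
        rw [Subgroup.eq_top_iff']
        intro ρ
        obtain ⟨b, rfl⟩ := ha ρ
        obtain ⟨p, rfl⟩ := hβ b
        exact Subgroup.mem_map.2 ⟨p, p.2, (hβ2 p).symm⟩
      have hfS : Finite (SymEP (twProj a χ q) r) := inferInstance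
      obtain ⟨k₀, hk₀⟩ := mainN hh K L _ _ h P (q * r) hPtop
        (Even.mul_right hq _) (Nat.mul_pos (by omega) (by omega)) χ hi β hβ a hβ2 ht hroots
      exact ⟨k₀, fun k hk _ => hk₀ k hk⟩
    · exact ⟨0, fun k _ h => absurd h hχ⟩
  choose ρ hρ using h1
  obtain ⟨r₀, hr₀⟩ := (Set.finite_range ρ).bddAbove
  refine ⟨r₀, fun r hr hidx => ?_⟩
  have h2 : ∀ χ, ∃ k₀ : ℕ, ∀ k ≥ k₀, (Odd r ∨ χ = 1) →
      RegSol K L (AltTw a χ (q * r * (2 * k + 1))) (twProj a χ (q * r * (2 * k + 1))) :=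
    fun χ => hρ χ r ((hr₀ ⟨χ, rfl⟩).trans hr) hidx
  choose κ hκ using h2
  obtain ⟨k₂, hk₂⟩ := (Set.finite_range κ).bddAbove
  exact ⟨k₂, fun k hk χ hχ => hκ χ k ((hk₂ ⟨χ, rfl⟩).trans hk) hχ⟩

end main

section fp

variable {B Γ Γ' : Type} [Group B] [Group Γ] [Group Γ'] (a : B →* Γ) (ρ : Γ' →* Γ)

theorem fpk_surj (ha : Function.Surjective a) : Function.Surjective (fpk a ρ) := by
  intro x
  obtain ⟨b, hb⟩ := ha (ρ x)
  exact ⟨⟨(b, x), hb⟩, rfl⟩

theorem card_ker_fpk : Nat.card (fpk a ρ).ker = Nat.card a.ker := by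
  refine Nat.card_congr
    { toFun := fun z => ⟨z.1.1.1, by
        have h1 : a z.1.1.1 = ρ z.1.1.2 := z.1.2
        have h2 : z.1.1.2 = 1 := z.2
        rw [h2, map_one] at h1
        exact h1⟩
      invFun := fun z => ⟨⟨(z.1, 1), by
        change a z.1 = ρ 1
        rw [map_one]
        exact z.2⟩, rfl⟩
      left_inv := fun z => by
        apply Subtype.ext
        apply Subtype.ext
        have h2 : z.1.1.2 = 1 := z.2
        exact Prod.ext rfl h2.symm
      right_inv := fun _ => rfl }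

end fp

section main

variable (K L : Type) [Field K] [CharZero K] [Field L] [Algebra K L]
    [FiniteDimensional K L] [IsGalois K L] {B : Type} [Group B] [Finite B]
    (a : B →* (L ≃ₐ[K] L))

/-- All embedding problems. -/
theorem t7 (hh : Hyp) (ha : Function.Surjective a) (q : ℕ) (hq : Even q) (hq4 : 4 ≤ q) :
    ∃ r₀ : ℕ, ∀ r ≥ r₀, IdxDvd K L B a r → ∃ k₀ : ℕ, ∀ k ≥ k₀,
      ∀ χ : (L ≃ₐ[K] L) →* ℤˣ, (Odd r ∨ χ = 1) →
        RegSol K L (AltTw a χ (q * r * (2 * k + 1))) (twProj a χ (q * r * (2 * k + 1))) := by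
  obtain ⟨L', i1, i2, i3, i4, i5, i6, hroots⟩ := hh.ru K L (Nat.card a.ker) Nat.card_pos
  have hres : Function.Surjective (AlgEquiv.restrictNormalHom (F := K) (K₁ := L') L) :=
    AlgEquiv.restrictNormalHom_surjective L'
  have hfin : Finite (FPk a (AlgEquiv.restrictNormalHom (F := K) (K₁ := L') L)) :=
    inferInstance
  obtain ⟨r₀, hr₀⟩ := t6 K L' (fpk a (AlgEquiv.restrictNormalHom (F := K) (K₁ := L') L)) hh
    (fpk_surj a _ ha) (by rw [card_ker_fpk]; exact hroots) q hq hq4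
  refine ⟨r₀, fun r hr hidx => ?_⟩
  obtain ⟨k₀, hk₀⟩ := hr₀ r hr (fun d hd => hidx d fun m hm => hd m (hh.ri K L L' B a m hm))
  refine ⟨k₀, fun k hk χ hχ => hh.rt K L L' B a χ _ (hk₀ k hk _ ?_)⟩
  rcases hχ with hχ | hχ
  · exact Or.inl hχ
  · right
    rw [hχ, MonoidHom.one_comp]

end main

end Pool.Agent.N70.EQ
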