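import Mathlib
import Pool.Agent.N70.EQ.Main
import Pool.Agent.N559.EQ.GS
import Pool.Agent.N498.EQ.GC
import Pool.Agent.N169.EQ.GW
import Pool.Agent.N441.EQ.KA
import Pool.Agent.N426.EQ.KB
import Pool.Agent.N603.EQ.KC
import Pool.Agent.N690.EQ.PD
import Pool.Agent.N755.EQ.HA
import Pool.Agent.N878.EQ.HB
import Pool.Agent.N953.EQ.PW
import Pool.Agent.N160.EQ.CU
import Pool.Agent.N27.EQ.FX
import Pool.Agent.N70.EQ.Mu
import Pool.Agent.N946.EQ.DE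
import Pool.Agent.N279.EQ.KDO
import Pool.Agent.N568.EQ.KUMO
import Pool.Agent.N887.EQ.RU
import Pool.Agent.N78.EQ.RT
import Pool.Agent.N607.EQ.RI

/-!
The pieces together.
-/

set_option autoImplicit false

namespace Pool.Agent.N70.EQ

open Pool.Agent

theorem kd : St_kd :=
  N279.EQ.t_kdo N690.EQ.t_pd N755.EQ.t_ha N878.EQ.t_hb N953.EQ.t_pw N160.EQ.t_cu N27.EQ.FX.t_fx
    N70.EQ.Mu.t_mu

theorem kum : St_kum := N568.EQ.t_kumo N441.EQ.t_ka N426.EQ.t_kb N603.EQ.t_kc kd N946.EQ.t_de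

theorem hyp : Hyp :=
  ⟨N559.EQ.t_gs, N498.EQ.t_gc, N169.EQ.t_gw, kum, N887.EQ.t_ru, N78.EQ.t_rt, N607.EQ.t_ri⟩

end Pool.Agent.N70.EQ
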