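import Mathlib
import Pool.Agent.N70.EQ.Main
import Pool.Agent.N70.EP.Kf
import Pool.Agent.N70.EP.TF

/-!
Kernels `G ≀ A_n`, almost all `n`; arbitrary kernels.
-/

set_option autoImplicit false
set_option linter.unusedSectionVars false
set_option linter.unusedSimpArgs false

namespace Pool.Agent.N70.EQ

open Polynomial Pool.Agent.H391R2 Pool.Agent.H391R2.T4
open Pool.Agent.Y793 (AWr AltTw twProj reg_wr regSol_iso)
open Pool.Agent.TH444.TW (RSK)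
open Pool.Agent.N600.UK (Out cls cls_eq_one conj_inj)
open Pool.Agent.N600.NS (IdxDvd Degs)
open Pool.Agent.N70.EP (transfer SplitIdx idx_of_split rsk_tw pB pB_surj FB splitIdx_mul
  splitIdx_pull exists_pull GoodKer0 AlmostAll exists_index weak_tw t_dens exists_splitIdx)

/-- The uniform form. -/
theorem t7u (hh : Hyp) (H B : Type) [Group H] [Finite H] [Group B] [Finite B] (a : B →* H)
    (ha : Function.Surjective a) (q : ℕ) (hq : Even q)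
    (hq4 : 4 ≤ q) :
    ∃ r₀ : ℕ, ∀ r ≥ r₀, SplitIdx a r → ∃ k₀ : ℕ, ∀ k ≥ k₀,
      ∀ χ : H →* ℤˣ, (Odd r ∨ χ = 1) → RSK ℚ (twProj a χ (q * r * (2 * k + 1))) := by
  obtain ⟨K₀, L₀, i1, i2, i3, i4, i5, i6, e₀, h⟩ := transfer H
  obtain ⟨r₀, hr₀⟩ := t7 K₀ L₀ ((e₀.symm : H →* (L₀ ≃ₐ[K₀] L₀)).comp a) hh
    (e₀.symm.surjective.comp ha) q hq hq4
  refine ⟨r₀, fun r hr hidx => ?_⟩
  obtain ⟨k₀, hk₀⟩ := hr₀ r hr (idx_of_split a hidx e₀)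
  refine ⟨k₀, fun k hk χ hχ => rsk_tw a χ _ e₀ h ?_⟩
  refine hk₀ k hk (χ.comp (e₀ : (L₀ ≃ₐ[K₀] L₀) →* H)) ?_
  rcases hχ with hχ | hχ
  · exact Or.inl hχ
  · right
    rw [hχ, MonoidHom.one_comp]

section ker

variable (G : Type) [Group G] [Finite G]

theorem rsk_ker7 (hh : Hyp) (hZ : ∀ z : G, (∀ g : G, z * g = g * z) → z = 1)
    (q : ℕ) (hq : Even q) (hq4 : 4 ≤ q) :
    ∃ r₀ : ℕ, ∀ r ≥ r₀, SplitIdx (cls G) r → ∃ k₀ : ℕ, ∀ k ≥ k₀,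
      ∀ (Γ : Type) [Group Γ] [Finite Γ] (o : Γ →* Out G) (χ : Γ →* ℤˣ), (Odd r ∨ χ = 1) →
      RSK ℚ (twProj (pB o) χ (q * r * (2 * k + 1))) := by
  have hfin : Finite (MulAut G) := Finite.of_injective (fun a : MulAut G => (a : G → G))
    DFunLike.coe_injective
  have hfinO : Finite (Out G) := inferInstance
  have hfS : Finite (Subgroup (Out G × ℤˣ)) := inferInstance
  have h0 : ∀ W : Subgroup (Out G × ℤˣ), ∃ r₀ : ℕ, ∀ r ≥ r₀,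
      SplitIdx (pB ((MonoidHom.fst (Out G) ℤˣ).comp W.subtype)) r → ∃ k₀ : ℕ, ∀ k ≥ k₀,
      ∀ χ : W →* ℤˣ, (Odd r ∨ χ = 1) → RSK ℚ (twProj
        (pB ((MonoidHom.fst (Out G) ℤˣ).comp W.subtype)) χ (q * r * (2 * k + 1))) := by
    intro W
    exact t7u hh W _ (pB ((MonoidHom.fst (Out G) ℤˣ).comp W.subtype)) (pB_surj _) q hq hq4
  choose ρ hρ using h0
  obtain ⟨r₀, hr₀⟩ := (Set.finite_range ρ).bddAbove
  refine ⟨r₀, fun r hr hidx => ?_⟩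
  have h1 : ∀ W : Subgroup (Out G × ℤˣ), ∃ k₀ : ℕ, ∀ k ≥ k₀,
      ∀ χ : W →* ℤˣ, (Odd r ∨ χ = 1) → RSK ℚ (twProj
        (pB ((MonoidHom.fst (Out G) ℤˣ).comp W.subtype)) χ (q * r * (2 * k + 1))) :=
    fun W => hρ W r ((hr₀ ⟨W, rfl⟩).trans hr) (splitIdx_pull G _ hidx)
  choose κ hκ using h1
  obtain ⟨k₀, hk₀⟩ := (Set.finite_range κ).bddAbove
  refine ⟨k₀, fun k hk Γ _ _ o χ hχ => ?_⟩
  let W : Subgroup (Out G × ℤˣ) := (o.prod χ).range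
  let π : Γ →* W := (o.prod χ).rangeRestrict
  have h2 := hκ W k ((hk₀ ⟨W, rfl⟩).trans hk) ((MonoidHom.snd (Out G) ℤˣ).comp W.subtype) (by
    rcases hχ with hχ | hχ
    · exact Or.inl hχ
    · right
      ext1 ⟨w, hw⟩
      obtain ⟨γ, rfl⟩ := hw
      change χ γ = 1
      rw [hχ]
      rfl)
  have hW : Finite (Wr (FB ((MonoidHom.fst (Out G) ℤˣ).comp W.subtype)) (q * r * (2 * k + 1))) :=
    finite_wr _ _
  have h3 := N75.EP.t_pul ℚ W _ Γ (twProj (pB ((MonoidHom.fst (Out G) ℤˣ).comp W.subtype))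
        ((MonoidHom.snd (Out G) ℤˣ).comp W.subtype) (q * r * (2 * k + 1))) π
        (MonoidHom.rangeRestrict_surjective _) h2
  obtain ⟨e, he⟩ := exists_pull ((MonoidHom.fst (Out G) ℤˣ).comp W.subtype) π
    ((MonoidHom.snd (Out G) ℤˣ).comp W.subtype) (q * r * (2 * k + 1))
  exact RSK.congr h3 e he

/-- The groups `G ≀ A_n` are kernels of regularly solvable embedding problems only. -/
theorem goodKer7 (hh : Hyp) [Nontrivial G] (hZ : ∀ z : G, (∀ g : G, z * g = g * z) → z = 1)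
    (q : ℕ) (hq : Even q) (hq4 : 4 ≤ q) :
    ∃ r₀ : ℕ, ∀ r ≥ r₀, Odd r → SplitIdx (cls G) r → ∃ k₀ : ℕ, ∀ k ≥ k₀,
      GoodKer0 (AWr G (q * r * (2 * k + 1))) := by
  obtain ⟨r₀, hr₀⟩ := rsk_ker7 G hh hZ q hq hq4
  refine ⟨r₀ + 2 * (Nat.card G + 4), fun r hr hodd hidx => ?_⟩
  obtain ⟨k₀, hk₀⟩ := hr₀ r (by omega) hidx
  refine ⟨k₀, fun k hk => ?_⟩
  intro K L X _ _ _ _ _ _ _ α hα hι
  have hn : 2 * (Nat.card G + 4) ≤ q * r * (2 * k + 1) := by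
    have h1 : 1 * r ≤ q * r := Nat.mul_le_mul_right _ (by omega)
    have h2 : q * r * 1 ≤ q * r * (2 * k + 1) := Nat.mul_le_mul_left _ (by omega)
    omega
  obtain ⟨o, χ, e, he⟩ := N891.EP.t_aut G hZ _ hn X (L ≃ₐ[K] L) α hα hι
  let _ : Algebra ℚ K := DivisionRing.toRatAlgebra
  have h1 := hk₀ k hk (L ≃ₐ[K] L) o χ (Or.inl hodd) K L (MulEquiv.refl _)
  refine regSol_iso K L _ _ _ _ e.symm (fun z => ?_) h1
  obtain ⟨x, rfl⟩ := e.surjective z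
  rw [e.symm_apply_apply, ← he]
  rfl

/-- Almost all multiples. -/
theorem goodKer_dens7 (hh : Hyp) [Nontrivial G]
    (hZ : ∀ z : G, (∀ g : G, z * g = g * z) → z = 1)
    (D : ℕ) (hD : Odd D) (hidx : SplitIdx (cls G) D) :
    AlmostAll (2 * D) (fun n => GoodKer0 (AWr G n)) := by
  refine t_dens D _ hD.pos fun q hq hq4 => ?_
  obtain ⟨r₀, hr₀⟩ := goodKer7 G hh hZ q hq hq4
  refine ⟨r₀, fun s hs hodd => ?_⟩
  have h1 : 1 * s ≤ D * s := Nat.mul_le_mul_right _ hD.pos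
  exact hr₀ (D * s) (by omega) (hD.mul hodd) (splitIdx_mul hidx s)

end ker

section main

variable (K L : Type) [Field K] [CharZero K] [Field L] [Algebra K L]
    [FiniteDimensional K L] [IsGalois K L] {B : Type} [Group B] [Finite B]
    (a : B →* (L ≃ₐ[K] L))

/-- **The index theorem for alternating fibre powers.** -/
theorem idx_thm7 (hh : Hyp) (ha : Function.Surjective a) :
    ∃ I : ℕ, 0 < I ∧ (∀ d : ℕ, d ∣ I ↔ ∀ m ∈ Degs K L B a, d ∣ m) ∧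
      (∀ (χ : (L ≃ₐ[K] L) →* ℤˣ) (n : ℕ), WeakSol K L (AltTw a χ n) (twProj a χ n) → I ∣ n) ∧
      (∀ q : ℕ, Even q → 4 ≤ q → ∃ r₀ : ℕ, ∀ r ≥ r₀, I ∣ r → ∃ k₀ : ℕ, ∀ k ≥ k₀,
        ∀ χ : (L ≃ₐ[K] L) →* ℤˣ, (Odd r ∨ χ = 1) →
          RegSol K L (AltTw a χ (q * r * (2 * k + 1))) (twProj a χ (q * r * (2 * k + 1)))) ∧
      AlmostAll (2 * I) (fun n => ∀ χ : (L ≃ₐ[K] L) →* ℤˣ, (Odd I ∨ χ = 1) →
        RegSol K L (AltTw a χ n) (twProj a χ n)) := by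
  obtain ⟨I, hI0, hI, hidx⟩ := exists_index K L a
  have hmain : ∀ q : ℕ, Even q → 4 ≤ q → ∃ r₀ : ℕ, ∀ r ≥ r₀, I ∣ r → ∃ k₀ : ℕ, ∀ k ≥ k₀,
        ∀ χ : (L ≃ₐ[K] L) →* ℤˣ, (Odd r ∨ χ = 1) →
          RegSol K L (AltTw a χ (q * r * (2 * k + 1))) (twProj a χ (q * r * (2 * k + 1))) := by
    intro q hq hq4
    obtain ⟨r₀, hr₀⟩ := t7 K L a hh ha q hq hq4
    exact ⟨r₀, fun r hr hd => hr₀ r hr ((hidx r).2 hd)⟩
  refine ⟨I, hI0, hI, fun χ n h => (hidx n).1 (weak_tw K L a h), hmain, ?_⟩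
  refine t_dens I _ hI0 fun q hq hq4 => ?_
  obtain ⟨r₀, hr₀⟩ := hmain q hq hq4
  refine ⟨r₀, fun s hs hodd => ?_⟩
  have h1 : 1 * s ≤ I * s := Nat.mul_le_mul_right _ hI0
  obtain ⟨k₀, hk₀⟩ := hr₀ (I * s) (by omega) (Dvd.intro _ rfl)
  refine ⟨k₀, fun k hk χ hχ => hk₀ k hk χ ?_⟩
  rcases hχ with hχ | hχ
  · exact Or.inl (hχ.mul hodd)
  · exact Or.inr hχ

end main

/-- The uniform form of the index theorem. -/
theorem idx_thmu7 (hh : Hyp) (H B : Type) [Group H] [Finite H] [Group B] [Finite B] (a : B →* H)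
    (ha : Function.Surjective a) :
    ∃ I : ℕ, 0 < I ∧ (∀ d : ℕ, d ∣ I ↔ ∀ (U : Subgroup H) (s : U →* B), (∀ h : U, a (s h) = h) →
      d ∣ U.index) ∧
      (∀ q : ℕ, Even q → 4 ≤ q → ∃ r₀ : ℕ, ∀ r ≥ r₀, I ∣ r → ∃ k₀ : ℕ, ∀ k ≥ k₀,
        ∀ χ : H →* ℤˣ, (Odd r ∨ χ = 1) → RSK ℚ (twProj a χ (q * r * (2 * k + 1)))) ∧
      AlmostAll (2 * I) (fun n => ∀ χ : H →* ℤˣ, (Odd I ∨ χ = 1) → RSK ℚ (twProj a χ n)) := by
  obtain ⟨I, hI0, hI, hidx⟩ := exists_splitIdx a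
  have hmain : ∀ q : ℕ, Even q → 4 ≤ q → ∃ r₀ : ℕ, ∀ r ≥ r₀, I ∣ r → ∃ k₀ : ℕ, ∀ k ≥ k₀,
        ∀ χ : H →* ℤˣ, (Odd r ∨ χ = 1) → RSK ℚ (twProj a χ (q * r * (2 * k + 1))) := by
    intro q hq hq4
    obtain ⟨r₀, hr₀⟩ := t7u hh H B a ha q hq hq4
    exact ⟨r₀, fun r hr hd => hr₀ r hr ((hidx r).2 hd)⟩
  refine ⟨I, hI0, hI, hmain, ?_⟩
  refine t_dens I _ hI0 fun q hq hq4 => ?_
  obtain ⟨r₀, hr₀⟩ := hmain q hq hq4
  refine ⟨r₀, fun s hs hodd => ?_⟩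
  have h1 : 1 * s ≤ I * s := Nat.mul_le_mul_right _ hI0
  obtain ⟨k₀, hk₀⟩ := hr₀ (I * s) (by omega) (Dvd.intro _ rfl)
  refine ⟨k₀, fun k hk χ hχ => hk₀ k hk χ ?_⟩
  rcases hχ with hχ | hχ
  · exact Or.inl (hχ.mul hodd)
  · exact Or.inr hχ

end Pool.Agent.N70.EQ
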