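import Mathlib
import Pool.Agent.N70.EP.VocC

/-!
# Vocabulary: kernels of embedding problems in characteristic zero, centreless groups
-/

set_option autoImplicit false

namespace Pool.Agent.N70.EQ.Voc

open Pool.Agent.N70.EP.Voc

/-- The class of groups, depending on two sets `A G`, `S G` of natural numbers for every group `G`.
It is the smallest class of groups which
* contains `G ≀ A_n` for every nontrivial finite group `G` with trivial centre and every `n` in
  `A G`,
* contains `G ≀ S_n` for every nontrivial finite group `G` with trivial centre and every `n` in
  `S G`,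
* contains the finite groups with trivial centre all of whose automorphisms are inner which are
  Galois groups of regular extensions of `ℚ(t)`,
* contains `T ≀ S_n` if it contains the nontrivial group `T` and `n ≥ 2 (|T| + 2)`,
* is closed under finite direct products, direct factors, isomorphisms and characteristic extensions
  (it contains `T` if it contains `C` and `T / C` for a characteristic subgroup `C` of `T`). -/
inductive KerClass (A S : ∀ (G : Type) [Group G], Set ℕ) : ∀ (T : Type) [Group T], Prop
  | alternating (G : Type) [Group G] (hG : Centreless G) (n : ℕ) (hn : n ∈ A G) :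
      KerClass A S (AltWreath G n)
  | symmetric (G : Type) [Group G] (hG : Centreless G) (n : ℕ) (hn : n ∈ S G) :
      KerClass A S (Wreath G n)
  | complete (T : Type) [Group T] [Finite T] (hZ : Subgroup.center T = ⊥)
      (hI : ∀ a : MulAut T, ∃ g : T, a = MulAut.conj g)
      (hR : RegularSolution (1 : T →* (ℚ ≃ₐ[ℚ] ℚ))) : KerClass A S T
  | power (T : Type) [Group T] [Nontrivial T] (h : KerClass A S T) (n : ℕ)
      (hn : 2 * (Nat.card T + 2) ≤ n) : KerClass A S (Wreath T n)
  | prod (I : Type) [Finite I] (T : I → Type) [∀ i, Group (T i)] (h : ∀ i, KerClass A S (T i)) :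
      KerClass A S (∀ i, T i)
  | factor (X T : Type) [Group X] [Group T] (h : KerClass A S (X × T)) : KerClass A S X
  | extension (T : Type) [Group T] (C : Subgroup T) [C.Characteristic] (h : KerClass A S C)
      (h' : KerClass A S (T ⧸ C)) : KerClass A S T
  | iso (T T' : Type) [Group T] [Group T'] (e : T ≃* T') (h : KerClass A S T) :
      KerClass A S T'

/-- The sets `A G` and `S G` are large: if the outer index of the nontrivial finite group `G` with
trivial centre is `D`, then `S G` contains all large multiples of `D`, and `A G` contains almost all
even multiples of `D` if `D` is odd. -/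
def Large (A S : ∀ (G : Type) [Group G], Set ℕ) : Prop :=
  ∀ (G : Type) [Group G], Centreless G → ∀ D : ℕ, OuterIndex G D →
    (∃ n₀ : ℕ, ∀ n ≥ n₀, D ∣ n → n ∈ S G) ∧
    (Odd D → AlmostAllMultiples (2 * D) (fun n => n ∈ A G))

end Pool.Agent.N70.EQ.Voc
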