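import Mathlib
import Pool.Agent.N70.EQ.VocK
import Pool.Agent.N70.EP.VocS

/-!
# Vocabulary: steps

`Cls ℚ` is the class of homomorphisms of the file `Pool/Agent/TH444/TW/ClsDef.lean`.
-/

set_option autoImplicit false

namespace Pool.Agent.N70.EQ.Voc

open Pool.Agent.N70.EP.Voc

/-- The class of homomorphisms, depending on a set `A₁ α` of natural numbers for every homomorphism
`α` and two sets `A₂ G`, `S G` of natural numbers for every group `G`. It is the smallest class of
homomorphisms of groups which
* contains the class `Cls ℚ` of the starting results (for example all split epimorphisms with a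
  finite abelian kernel),
* contains the projections `twPr α χ n : TwPow α χ n → W` of the alternating fibre powers of a
  homomorphism `α : B → W`, `B` finite, twisted by `χ`, if `n` is in `A₁ α` and the index of `α` is
  odd or `χ = 1`,
* contains all epimorphisms whose kernel is in the class `KerClass A₂ S`,
* is closed under composition, and under quotients (if `p ∘ q` is in the class and `q` is
  surjective, then `p` is in the class). -/
inductive StepClass (A₁ : ∀ (W B : Type) [Group W] [Group B], (B →* W) → Set ℕ)
    (A₂ S : ∀ (G : Type) [Group G], Set ℕ) :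
    ∀ {W W' : Type} [Group W] [Group W'], (W' →* W) → Prop
  | old {W W' : Type} [Group W] [Group W'] (p : W' →* W)
      (h : Pool.Agent.TH444.TW.Cls ℚ p) : StepClass A₁ A₂ S p
  | alternating {W B : Type} [Group W] [Group B] [Finite B] (α : B →* W) (χ : W →* ℤˣ) (n : ℕ)
      (hn : n ∈ A₁ W B α) (hχ : OddOrOne α χ) : StepClass A₁ A₂ S (twPr α χ n)
  | kernel {W W' : Type} [Group W] [Group W'] (p : W' →* W) (hp : Function.Surjective p)
      (h : KerClass A₂ S p.ker) : StepClass A₁ A₂ S p
  | comp {W W' W'' : Type} [Group W] [Group W'] [Group W''] (p : W' →* W) (q : W'' →* W')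
      (hp : StepClass A₁ A₂ S p) (hq : StepClass A₁ A₂ S q) : StepClass A₁ A₂ S (p.comp q)
  | quot {W W' W'' : Type} [Group W] [Group W'] [Group W''] (p : W' →* W) (q : W'' →* W')
      (hq : Function.Surjective q) (hpq : StepClass A₁ A₂ S (p.comp q)) : StepClass A₁ A₂ S p

/-- The sets `A₁ α` are large: if `α` is a surjective homomorphism of finite groups of index `I`, then
`A₁ α` contains almost all multiples of `2 I`. -/
def LargeHom (A₁ : ∀ (W B : Type) [Group W] [Group B], (B →* W) → Set ℕ) : Prop :=
  ∀ (W B : Type) [Group W] [Finite W] [Group B] [Finite B] (α : B →* W),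
    Function.Surjective α → ∀ I : ℕ, IsSplittingIndex α I →
      AlmostAllMultiples (2 * I) (fun n => n ∈ A₁ W B α)

end Pool.Agent.N70.EQ.Voc
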