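import Mathlib
import Pool.Agent.N891.EP.Aut
import Pool.Agent.N70.EQ.TF

/-!
Kernels `G ≀ S_n`.
-/

set_option autoImplicit false
set_option linter.unusedSectionVars false
set_option linter.unusedSimpArgs false

namespace Pool.Agent.N70.EQ

open Pool.Agent.H391R2 Pool.Agent.H391R2.T4 Pool.Agent.TH59.WX Pool.Agent.Y793
  Pool.Agent.N600.UK Pool.Agent.N70.EP

/-- **The extensions by `G ≀ S_n` are symmetric fibre powers.** -/
theorem saut (G : Type) [Group G] [Finite G] [Nontrivial G]
    (hZ : ∀ z : G, (∀ g : G, z * g = g * z) → z = 1) (n : ℕ) (hn : 2 * (Nat.card G + 2) ≤ n)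
    (X Γ : Type) [Group X] [Group Γ] (p : X →* Γ) (hp : Function.Surjective p)
    (hι : Nonempty (p.ker ≃* Wr G n)) :
    ∃ (o : Γ →* Out G) (e : X ≃* SymEP (pB o) n), ∀ x, symProj (pB o) n (e x) = p x := by
  classical
  obtain ⟨ι'⟩ := hι
  set ι : Wr G n ≃* p.ker := ι'.symm with hι
  obtain ⟨D, -, hDc, hDcl'⟩ := exists_D (G := G) (n := n) hn hZ
  have hDcl : ∀ a j k, cls G ((D a).left j) = cls G ((D a).left k) := by
    intro a j k
    obtain ⟨u, hu⟩ := hDcl' a j k
    rw [hu, map_mul, cls_conj, one_mul]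
  have hn0 : 0 < n := by omega
  let j₀ : Fin n := ⟨0, hn0⟩
  let c : X →* MulAut (Wr G n) := (MulAut.congr ι.symm).toMonoidHom.comp MulAut.conjNormal
  have hc : ∀ w : Wr G n, c (ι w) = MulAut.conj w := by
    intro w
    apply MulEquiv.ext
    intro x
    change ι.symm (MulAut.conjNormal (ι w : X) (ι x)) = w * x * w⁻¹
    rw [MulEquiv.symm_apply_eq]
    apply Subtype.ext
    rw [MulAut.conjNormal_apply]
    simp only [map_mul, map_inv, Subgroup.coe_mul, Subgroup.coe_inv]
  let d : X →* Wr (MulAut G) n := D.comp c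
  have hd : ∀ w : Wr G n, d (ι w) = cm G n w := by
    intro w
    change D (c (ι w)) = _
    rw [hc, hDc]
    rfl
  have hcl : ∀ x j k, cls G ((d x).left j) = cls G ((d x).left k) := fun x j k => hDcl (c x) j k
  let ψ : X →* Out G := MonoidHom.mk' (fun x => cls G ((d x).left j₀)) (fun x y => by
    rw [map_mul, wr_mul_left, map_mul, hcl y _ j₀])
  have hψ : ∀ x j, cls G ((d x).left j) = ψ x := fun x j => hcl x j j₀
  have hker : p.ker ≤ ψ.ker := by
    intro x hx
    obtain ⟨w, hw⟩ := ι.surjective ⟨x, hx⟩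
    have h1 : (ι w : X) = x := congrArg Subtype.val hw
    rw [MonoidHom.mem_ker, ← hψ x j₀, ← h1, hd, cm_left, cls_conj]
  let o : Γ →* Out G := p.liftOfSurjective hp ⟨ψ, hker⟩
  have ho : ∀ x, o (p x) = ψ x := fun x =>
    MonoidHom.liftOfRightInverse_comp_apply p _ (Function.rightInverse_surjInv hp) ⟨ψ, hker⟩ x
  -- the isomorphism
  have hmem : ∀ x j, ((d x).left j, p x) ∈ FB o := by
    intro x j
    change cls G ((d x).left j) = o (p x)
    rw [ho, hψ]
  let E : X → SymEP (pB o) n := fun x =>
    ⟨(⟨fun j => ⟨((d x).left j, p x), hmem x j⟩, (d x).right⟩, p x), fun j => rfl⟩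
  let Eh : X →* SymEP (pB o) n := MonoidHom.mk' E (fun x y => by
    apply Subtype.ext
    refine Prod.ext ?_ (map_mul p x y)
    refine SemidirectProduct.ext (funext fun j => ?_) ?_
    · apply Subtype.ext
      refine Prod.ext ?_ (map_mul p x y)
      change (d (x * y)).left j = (d x).left j * (d y).left ((d x).right⁻¹ j)
      rw [map_mul, wr_mul_left]
    · change (d (x * y)).right = (d x).right * (d y).right
      rw [map_mul, wr_mul_right])
  have hE : Function.Bijective Eh := by
    constructor
    · rw [injective_iff_map_eq_one]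
      intro x hx
      have h1 : p x = 1 := congrArg (fun z : SymEP (pB o) n => z.1.2) hx
      obtain ⟨w, hw⟩ := ι.surjective ⟨x, h1⟩
      have h3 : (ι w : X) = x := congrArg Subtype.val hw
      have h4 : d x = 1 := by
        refine SemidirectProduct.ext (funext fun j => ?_) ?_
        · have h5 := congrArg (fun z : SymEP (pB o) n => ((z.1.1.left j : FB o) :
            MulAut G × Γ).1) hx
          exact h5
        · exact congrArg (fun z : SymEP (pB o) n => z.1.1.right) hx
      rw [← h3, hd] at h4
      have h7 : w = 1 := cm_inj hZ (h4.trans (map_one (cm G n)).symm)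
      rw [← h3, h7, map_one]
      rfl
    · rintro ⟨⟨z, γ⟩, hz⟩
      have hz1' : ∀ j, ((z.left j : FB o) : MulAut G × Γ).2 = γ := hz
      obtain ⟨x₀, rfl⟩ := hp γ
      let z' : Wr (MulAut G) n := ⟨fun j => ((z.left j : FB o) : MulAut G × Γ).1, z.right⟩
      have hz3 : ∀ j, cls G (z'.left j) = ψ x₀ := by
        intro j
        have h1 : cls G ((z.left j : FB o) : MulAut G × Γ).1
          = o ((z.left j : FB o) : MulAut G × Γ).2 := (z.left j).2
        change cls G ((z.left j : FB o) : MulAut G × Γ).1 = _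
        rw [h1, hz1', ho]
      have h2 : (d x₀)⁻¹ * z' ∈ (cm G n).range := by
        rw [mem_cm]
        intro i
        rw [wr_mul_left, wr_inv_left, map_mul, map_inv, hz3, hψ, inv_mul_cancel]
      obtain ⟨y, hy⟩ := h2
      let w : Wr G n := y
      have hdw : d (x₀ * (ι w : X)) = z' := by
        rw [map_mul, hd]
        change d x₀ * cm G n y = z'
        rw [hy, mul_inv_cancel_left]
      have hpw : p (x₀ * (ι w : X)) = p x₀ := by
        rw [map_mul]
        have : p (ι w : X) = 1 := (ι w).2
        rw [this, mul_one]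
      refine ⟨x₀ * (ι w : X), ?_⟩
      apply Subtype.ext
      refine Prod.ext ?_ hpw
      refine SemidirectProduct.ext (funext fun j => ?_) ?_
      · apply Subtype.ext
        refine Prod.ext ?_ ?_
        · change (d (x₀ * (ι w : X))).left j = _
          rw [hdw]
        · change p (x₀ * (ι w : X)) = _
          rw [hpw]
          exact (hz1' j).symm
      · change (d (x₀ * (ι w : X))).right = _
        rw [hdw]
  exact ⟨o, MulEquiv.ofBijective Eh hE, fun x => rfl⟩


end Pool.Agent.N70.EQ
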