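import Mathlib
import Pool.Agent.N70.EQ.Sa

/-!
The groups `G ≀ S_n` as kernels, for all finite groups `G` without centre.
-/

set_option autoImplicit false
set_option linter.unusedSectionVars false
set_option linter.unusedSimpArgs false

namespace Pool.Agent.N70.EQ

open Polynomial Pool.Agent.H391R2 Pool.Agent.H391R2.T4
open Pool.Agent.Y793 (AWr AltTw twProj reg_wr regSol_iso)
open Pool.Agent.TH444.TW (RSK)
open Pool.Agent.TH377.IG (FP prFP)
open Pool.Agent.N600.UK (Out cls cls_eq_one conj_inj)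
open Pool.Agent.N600.NS (IdxDvd Degs)
open Pool.Agent.N70.EP (transfer SplitIdx idx_of_split pB pB_surj FB
  splitIdx_pull GoodKer0 fbMap)

/-- Transport of the symmetric fibre powers. -/
def symTrans {B Γ Γ' : Type} [Group B] [Group Γ] [Group Γ'] (e : Γ' ≃* Γ) (a : B →* Γ)
    (n : ℕ) : SymEP ((e.symm : Γ →* Γ').comp a) n ≃* SymEP a n where
  toFun z := ⟨(z.1.1, e z.1.2), fun i => by
    have h1 := z.2 i
    change e.symm (a (z.1.1.left i)) = z.1.2 at h1
    change a (z.1.1.left i) = e z.1.2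
    rw [← h1, e.apply_symm_apply]⟩
  invFun z := ⟨(z.1.1, e.symm z.1.2), fun i => by
    have h1 := z.2 i
    change a (z.1.1.left i) = z.1.2 at h1
    change e.symm (a (z.1.1.left i)) = e.symm z.1.2
    rw [h1]⟩
  left_inv z := Subtype.ext (Prod.ext rfl (e.symm_apply_apply _))
  right_inv z := Subtype.ext (Prod.ext rfl (e.apply_symm_apply _))
  map_mul' z w := Subtype.ext (Prod.ext rfl (e.map_mul _ _))

/-- The symmetric index theorem, uniformly in the fields. -/
theorem symU (H B : Type) [Group H] [Finite H] [Group B] [Finite B] (a : B →* H)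
    (ha : Function.Surjective a) :
    ∃ n₀ : ℕ, ∀ n ≥ n₀, SplitIdx a n → RSK ℚ (symProj a n) := by
  obtain ⟨K₀, L₀, i1, i2, i3, i4, i5, i6, e₀, h⟩ := transfer H
  obtain ⟨n₀, hn₀⟩ := N600.NS.reg_index K₀ L₀ _ ((e₀.symm : H →* (L₀ ≃ₐ[K₀] L₀)).comp a)
    (e₀.symm.surjective.comp ha)
  refine ⟨n₀, fun n hn hidx => ?_⟩
  have h1 := (hn₀ n hn (idx_of_split a hidx e₀)).2
  have hW : Finite (Wr B n) := finite_wr B n
  have hf : Finite (SymEP a n) := inferInstance
  refine h _ (symProj a n) ?_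
  refine regSol_iso K₀ L₀ _ _ _ _ (symTrans e₀ a n) (fun z => ?_) h1
  exact e₀.symm_apply_apply _

section fb

variable {G Γ Γ' : Type} [Group G] [Group Γ] [Group Γ'] (o : Γ →* Out G) (ρ : Γ' →* Γ)

/-- Pull-back of the symmetric fibre powers. -/
theorem exists_pullS (n : ℕ) :
    ∃ e : FP (symProj (pB o) n) ρ ≃* SymEP (pB (o.comp ρ)) n,
      ∀ x, symProj (pB (o.comp ρ)) n (e x) = prFP (symProj (pB o) n) ρ x := by
  let F : SymEP (pB (o.comp ρ)) n →* FP (symProj (pB o) n) ρ := MonoidHom.mk'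
    (fun z => ⟨(⟨(Pool.Agent.H391R2.V.wmap n (fbMap o ρ) z.1.1, ρ z.1.2),
      fun i => congrArg ρ (z.2 i)⟩, z.1.2), rfl⟩) (fun z w => by
      apply Subtype.ext
      refine Prod.ext ?_ rfl
      apply Subtype.ext
      refine Prod.ext ?_ (map_mul ρ _ _)
      exact map_mul _ _ _)
  have hF : Function.Bijective F := by
    constructor
    · intro z w hzw
      have h1 : z.1.2 = w.1.2 := congrArg (fun u : FP (symProj (pB o) n) ρ => u.1.2) hzw
      have h2 : Pool.Agent.H391R2.V.wmap n (fbMap o ρ) z.1.1 =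
          Pool.Agent.H391R2.V.wmap n (fbMap o ρ) w.1.1 :=
        congrArg (fun u : FP (symProj (pB o) n) ρ => u.1.1.1.1) hzw
      apply Subtype.ext
      refine Prod.ext ?_ h1
      apply SemidirectProduct.ext
      · funext i
        apply Subtype.ext
        refine Prod.ext ?_ ?_
        · exact congrArg (fun u : Wr (FB o) n => (u.left i).1.1) h2
        · have h3 : (z.1.1.left i).1.2 = z.1.2 := z.2 i
          have h4 : (w.1.1.left i).1.2 = w.1.2 := w.2 i
          rw [h3, h4, h1]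
      · exact congrArg (fun u : Wr (FB o) n => u.right) h2
    · rintro ⟨⟨⟨⟨x, w⟩, hx⟩, γ⟩, hγ⟩
      have hw : w = ρ γ := hγ
      subst hw
      have hx1 : ∀ i, (x.left i).1.2 = ρ γ := fun i => hx i
      refine ⟨⟨(⟨fun i => ⟨((x.left i).1.1, γ), ?_⟩, x.right⟩, γ), fun i => rfl⟩, ?_⟩
      · change cls G (x.left i).1.1 = o (ρ γ)
        rw [← hx1 i]
        exact (x.left i).2
      · apply Subtype.ext
        refine Prod.ext ?_ rfl
        apply Subtype.ext
        refine Prod.ext ?_ rfl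
        apply SemidirectProduct.ext
        · funext i
          apply Subtype.ext
          exact Prod.ext rfl (hx1 i).symm
        · rfl
  refine ⟨(MulEquiv.ofBijective F hF).symm, fun x => ?_⟩
  obtain ⟨z, rfl⟩ := (MulEquiv.ofBijective F hF).surjective x
  rw [MulEquiv.symm_apply_apply]
  rfl

end fb

section ker

variable (G : Type) [Group G] [Finite G]

theorem rsk_kerS : ∃ n₀ : ℕ, ∀ n ≥ n₀, SplitIdx (cls G) n →
      ∀ (Γ : Type) [Group Γ] [Finite Γ] (o : Γ →* Out G), RSK ℚ (symProj (pB o) n) := by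
  have hfin : Finite (MulAut G) := Finite.of_injective (fun a : MulAut G => (a : G → G))
    DFunLike.coe_injective
  have hfinO : Finite (Out G) := inferInstance
  have hfS : Finite (Subgroup (Out G)) := inferInstance
  have h0 : ∀ W : Subgroup (Out G), ∃ n₀ : ℕ, ∀ n ≥ n₀,
      SplitIdx (pB W.subtype) n → RSK ℚ (symProj (pB W.subtype) n) :=
    fun W => symU W _ (pB W.subtype) (pB_surj _)
  choose ρ hρ using h0
  obtain ⟨n₀, hn₀⟩ := (Set.finite_range ρ).bddAbove
  refine ⟨n₀, fun n hn hidx Γ _ _ o => ?_⟩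
  let W : Subgroup (Out G) := o.range
  let π : Γ →* W := o.rangeRestrict
  have h2 := hρ W n ((hn₀ ⟨W, rfl⟩).trans hn) (splitIdx_pull G _ hidx)
  have hW : Finite (Wr (FB W.subtype) n) := finite_wr _ _
  have h3 := N75.EP.t_pul ℚ W _ Γ (symProj (pB W.subtype) n) π
        (MonoidHom.rangeRestrict_surjective _) h2
  obtain ⟨e, he⟩ := exists_pullS W.subtype π n
  exact RSK.congr h3 e he

/-- The groups `G ≀ S_n` are kernels of regularly solvable embedding problems only. -/
theorem goodKerS [Nontrivial G] (hZ : ∀ z : G, (∀ g : G, z * g = g * z) → z = 1) :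
    ∃ n₀ : ℕ, ∀ n ≥ n₀, SplitIdx (cls G) n → GoodKer0 (Wr G n) := by
  obtain ⟨n₀, hn₀⟩ := rsk_kerS G
  refine ⟨n₀ + 2 * (Nat.card G + 2), fun n hn' hidx => ?_⟩
  intro K L X _ _ _ _ _ _ _ α hα hι
  obtain ⟨o, e, he⟩ := saut G hZ n (by omega) X (L ≃ₐ[K] L) α hα hι
  let _ : Algebra ℚ K := DivisionRing.toRatAlgebra
  have h1 := hn₀ n (by omega) hidx (L ≃ₐ[K] L) o K L (MulEquiv.refl _)
  refine regSol_iso K L _ _ _ _ e.symm (fun z => ?_) h1
  obtain ⟨x, rfl⟩ := e.surjective z
  rw [e.symm_apply_apply, ← he]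
  rfl

end ker

end Pool.Agent.N70.EQ
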