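import Mathlib
import Pool.Agent.N70.EQ.VocK
import Pool.Agent.N70.EQ.TF
import Pool.Agent.N70.EQ.Sb
import Pool.Agent.N70.EP.VocCB

/-!
The class of kernels.
-/

set_option autoImplicit false
set_option linter.unusedSectionVars false
set_option linter.unusedSimpArgs false

namespace Pool.Agent.N70.EQ

open Pool.Agent.H391R2 Pool.Agent.H391R2.T4
open Pool.Agent.N70.EP.Voc
open Pool.Agent.N70.EQ.Voc
open Pool.Agent.Y793 (AWr AltTw twProj reg_wr regSol_iso)
open Pool.Agent.TH444.TW (RSK infinite_ratFunc)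
open Pool.Agent.N600.UK (CL cl_of_center center_of_cl cl_iso Out cls cls_eq_one conj_inj)
open Pool.Agent.TH59.WX (finite_of_kernel hil_of_reg)
open Pool.Agent.TH15.IGP (Lim)
open Pool.Agent.N70.EP (awr_eq splitIdx_of_outer setA GoodKer0 splitIdx_mul St_gd0 regularTower_of
  properTower_of)

/-- The sets of natural numbers. -/
def setS (G : Type) [Group G] : Set ℕ := {n | GoodKer0 (Wr G n)}

theorem setA_dens7 (hh : Hyp) (G : Type) [Group G] (hG : Centreless G) (D : ℕ)
    (hD : OuterIndex G D) (hodd : Odd D) : AlmostAllMultiples (2 * D) (fun n => n ∈ setA G) := by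
  have h1 := hG.finite
  have h2 := hG.nontrivial
  exact goodKer_dens7 G hh (cl_of_center hG.center) D hodd (splitIdx_of_outer G hD)

theorem setS_large (G : Type) [Group G] (hG : Centreless G) (D : ℕ)
    (hD : OuterIndex G D) : ∃ n₀ : ℕ, ∀ n ≥ n₀, D ∣ n → n ∈ setS G := by
  have h1 := hG.finite
  have h2 := hG.nontrivial
  obtain ⟨n₀, hn₀⟩ := goodKerS G (cl_of_center hG.center)
  refine ⟨n₀, fun n hn hd => hn₀ n hn ?_⟩
  obtain ⟨s, rfl⟩ := hd
  exact splitIdx_mul (splitIdx_of_outer G hD) s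

theorem large7 (hh : Hyp) : Large (fun G _ => setA G) (fun G _ => setS G) :=
  fun G _ hG D hD => ⟨setS_large G hG D hD, setA_dens7 hh G hG D hD⟩

theorem kernel_main7 (A S : ∀ (G : Type) [Group G], Set ℕ)
    (hA : ∀ (G : Type) [Group G] (n : ℕ), n ∈ A G → n ∈ setA G)
    (hS : ∀ (G : Type) [Group G] (n : ℕ), n ∈ S G → n ∈ setS G) (T : Type) [Group T]
    (hT : KerClass A S T) : Finite T ∧ CL T ∧ GoodKer0 T := by
  have gd : St_gd0 := N97.EP.t_gd0
  induction hT with
  | alternating G hG n hn =>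
    have h2 := hG.finite
    have h3 := hG.nontrivial
    have h4 : Finite (Wr G n) := finite_wr G n
    refine ⟨Finite.of_injective Subtype.val Subtype.val_injective, ?_, hA G n hn⟩
    intro z hz
    exact N478.EP.triv_of_comm (cl_of_center hG.center) z (fun k g => hz (N891.EP.sg k g))
  | symmetric G hG n hn =>
    have h2 := hG.finite
    have h3 := hG.nontrivial
    refine ⟨finite_wr G n, fun x hx => N600.UK.center_wr (cl_of_center hG.center) x hx,
      hS G n hn⟩
  | complete T hZ hI hR =>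
    exact ⟨inferInstance, cl_of_center hZ, gd.complete T (cl_of_center hZ) hI hR⟩
  | power T h n hn ih =>
    obtain ⟨h1, h2, h3⟩ := ih
    exact ⟨finite_wr T n, fun x hx => N600.UK.center_wr h2 x hx, gd.wr T h2 h3 n hn⟩
  | prod I T h ih =>
    have h1 : ∀ i, Finite (T i) := fun i => (ih i).1
    refine ⟨inferInstance, ?_, gd.pi I T (fun i => (ih i).2.1) (fun i => (ih i).2.2)⟩
    intro z hz
    classical
    funext i
    refine (ih i).2.1 _ fun g => ?_
    have h2 := congrFun (hz (Pi.mulSingle i g)) i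
    rw [Pi.mul_apply, Pi.mul_apply, Pi.mulSingle_eq_same] at h2
    exact h2
  | factor A B h ih =>
    obtain ⟨h1, h2, h3⟩ := ih
    refine ⟨Finite.of_injective (fun a : A => (a, (1 : B))) (fun a b hab => congrArg Prod.fst hab),
      ?_, gd.factor A B h3⟩
    intro z hz
    have h4 : ((z, 1) : A × B) = 1 := by
      apply h2
      rintro ⟨a, b⟩
      refine Prod.ext (hz a) ?_
      change 1 * b = b * 1
      rw [one_mul, mul_one]
    exact congrArg Prod.fst h4
  | extension T C h h' ih ih' =>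
    obtain ⟨h1, h2, h3⟩ := ih
    obtain ⟨h4, h5, h6⟩ := ih'
    have hfin : Finite T := Finite.of_subgroup_quotient C
    refine ⟨hfin, ?_, gd.char T C h3 h6⟩
    intro z hz
    have h7 : (QuotientGroup.mk' C z) = 1 := by
      apply h5
      intro g
      obtain ⟨g, rfl⟩ := QuotientGroup.mk'_surjective C g
      rw [← map_mul, hz g, map_mul]
    rw [QuotientGroup.mk'_apply, QuotientGroup.eq_one_iff] at h7
    have h8 : (⟨z, h7⟩ : C) = 1 := by
      apply h2
      intro g
      exact Subtype.ext (hz g)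
    exact congrArg Subtype.val h8
  | iso T T' e h ih =>
    obtain ⟨h1, h2, h3⟩ := ih
    exact ⟨Finite.of_equiv _ e.toEquiv, cl_iso e h2, gd.iso T T' e h3⟩

/-- The index theorem. -/
theorem voc_index7 (hh : Hyp) (K L : Type) [Field K] [CharZero K] [Field L] [Algebra K L]
    [FiniteDimensional K L] [IsGalois K L] {B : Type} [Group B] [Finite B]
    (α : B →* (L ≃ₐ[K] L)) (hα : Function.Surjective α) :
    ∃ I : ℕ, IsIndex α I ∧
      (∀ (χ : (L ≃ₐ[K] L) →* ℤˣ) (n : ℕ),
        TwWeak α χ n ∨ TwRegular α χ n → I ∣ n) ∧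
      AlmostAllMultiples (2 * I) (fun n => ∀ χ : (L ≃ₐ[K] L) →* ℤˣ, Odd I ∨ χ = 1 →
        TwRegular α χ n) ∧
      ∀ q : ℕ, Even q → 4 ≤ q → ∃ r₀ : ℕ, ∀ r ≥ r₀, I ∣ r → ∃ k₀ : ℕ, ∀ k ≥ k₀,
        ∀ χ : (L ≃ₐ[K] L) →* ℤˣ, Odd r ∨ χ = 1 →
          TwRegular α χ (q * r * (2 * k + 1)) := by
  obtain ⟨I, hI0, hI, h1, h2, h3⟩ := idx_thm7 K L α hh hα
  refine ⟨I, EP.isIndex_of K L α hI0 hI, ?_, ?_, ?_⟩
  · rintro χ n (h | h)
    · exact h1 χ n (EP.weak_tw' K L α χ n h)
    · have hW : Finite (Wr B n) := finite_wr B n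
      exact h1 χ n (Pool.Agent.N600.NS.weak_of_reg K L _ _ ((EP.regular_iff K L α χ n).1 h))
  · refine EP.almostAll_mono h3 fun n hn χ hχ => (EP.regular_iff K L α χ n).2 (hn χ hχ)
  · intro q hq hq4
    obtain ⟨r₀, hr₀⟩ := h2 q hq hq4
    refine ⟨r₀, fun r hr hd => ?_⟩
    obtain ⟨k₀, hk₀⟩ := hr₀ r hr hd
    exact ⟨k₀, fun k hk χ hχ => (EP.regular_iff K L α χ _).2 (hk₀ k hk χ hχ)⟩

end Pool.Agent.N70.EQ
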