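import Mathlib
import Pool.Agent.N70.EQ.VocT
import Pool.Agent.N70.EQ.VocKB
import Pool.Agent.N70.EP.VocSB

/-!
Steps.
-/

set_option autoImplicit false
set_option linter.unusedSectionVars false
set_option linter.unusedSimpArgs false

namespace Pool.Agent.N70.EQ

open Pool.Agent.H391R2 Pool.Agent.H391R2.T4
open Pool.Agent.N70.EP.Voc
open Pool.Agent.N70.EQ.Voc
open Pool.Agent.Y793 (AWr AltTw twProj reg_wr regSol_iso)
open Pool.Agent.TH444.TW (RSK infinite_ratFunc finite_of_ker)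
open Pool.Agent.N70.EP (isSplittingIndex_unique setB setA rsk_twPr almostAll_mono rsk_of_good)

theorem setB_dens7 (hh : Hyp) {H B : Type} [Group H] [Finite H] [Group B] [Finite B] (α : B →* H)
    (hα : Function.Surjective α) (I : ℕ)
    (hI : IsSplittingIndex α I) : AlmostAllMultiples (2 * I) (fun n => n ∈ setB α) := by
  obtain ⟨I', hI0, hI', -, h⟩ := idx_thmu7 hh H B α hα
  have h1 : I' = I := isSplittingIndex_unique ⟨hI0, hI'⟩ hI
  subst h1
  refine almostAll_mono h fun n hn χ hχ => rsk_twPr α χ n (hn χ ?_)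
  rcases hχ with ⟨J, hJ, hJ'⟩ | hχ
  · have h2 : J = I' := isSplittingIndex_unique hJ' hI
    subst h2
    exact Or.inl hJ
  · exact Or.inr hχ

theorem largeHom7 (hh : Hyp) : LargeHom (fun _ _ _ _ α => setB α) :=
  fun _ _ _ _ _ _ α hα I hI => setB_dens7 hh α hα I hI

theorem step_main7 (A₁ : ∀ (W B : Type) [Group W] [Group B], (B →* W) → Set ℕ)
    (A₂ S : ∀ (G : Type) [Group G], Set ℕ)
    (h₁ : ∀ (W B : Type) [Group W] [Group B] (α : B →* W) (n : ℕ), n ∈ A₁ W B α → n ∈ setB α)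
    (h₂ : ∀ (G : Type) [Group G] (n : ℕ), n ∈ A₂ G → n ∈ setA G)
    (h₃ : ∀ (G : Type) [Group G] (n : ℕ), n ∈ S G → n ∈ setS G)
    {W W' : Type} [Group W] [Group W'] {p : W' →* W} (h : StepClass A₁ A₂ S p) :
    Finite W → Finite W' ∧ RSK ℚ p := by
  induction h with
  | old p h => exact fun hW => ⟨h.finite, h.rsk⟩
  | @alternating W B _ _ _ α χ n hn hχ =>
    intro hW
    have hf : Finite (Wr B n) := finite_wr B n
    exact ⟨Finite.of_injective Subtype.val Subtype.val_injective, h₁ W B α n hn χ hχ⟩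
  | kernel p hp h =>
    intro hW
    obtain ⟨h3, -, h5⟩ := kernel_main7 A₂ S h₂ h₃ _ h
    exact ⟨finite_of_ker p, rsk_of_good h5 p hp ⟨MulEquiv.refl _⟩⟩
  | comp p q hp hq ihp ihq =>
    intro hW
    obtain ⟨h1, h2⟩ := ihp hW
    obtain ⟨h3, h4⟩ := ihq h1
    exact ⟨h3, RSK.comp h2 h4⟩
  | quot p q hq hpq ih =>
    intro hW
    obtain ⟨h1, h2⟩ := ih hW
    exact ⟨Finite.of_surjective q hq, RSK.quot q hq (fun x => rfl) h2⟩

end Pool.Agent.N70.EQ
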