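import Mathlib
import Pool.Agent.N70.EQ.VocTB
import Pool.Agent.N70.EP.VocQB

/-!
Realizability of alternating fibre powers.
-/

set_option autoImplicit false
set_option linter.unusedSectionVars false
set_option linter.unusedSimpArgs false

namespace Pool.Agent.N70.EQ

open Nfff32c05
open Pool.Agent.H391R2 Pool.Agent.N70.EP.Voc
open Pool.Agent.H391R2.T4
open Pool.Agent.Y793 (AWr AltTw twProj reg_out hil_out)
open Pool.Agent.TH444.TW (RSK RegularOver regSol_of_regularOver infinite_ratFunc)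
open Pool.Agent.N600.UK (triv_aut)
open Pool.Agent.N70.EP (setB almostAll_mono realizableIff_of twPr_surj altRealizable_of
  splitIdx_one t_dens)

/-- The general case. -/
theorem twIff_dens7 (hh : Hyp) {H B : Type} [Group H] [Finite H] [Group B] [Finite B] (α : B →* H)
    (hα : Function.Surjective α) (I : ℕ)
    (hI : IsSplittingIndex α I) :
    AlmostAllMultiples (2 * I) (fun n => ∀ χ : H →* ℤˣ, Odd I ∨ χ = 1 → TwIff α χ n) := by
  classical
  have h := setB_dens7 hh α hα I hI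
  -- small `n`
  have h2 : AlmostAllMultiples (2 * I) (fun n => 2 ≤ n ∧ n ∈ setB α) := by
    intro ε hε
    obtain ⟨N, hN⟩ := h (ε / 2) (by positivity)
    obtain ⟨N', hN'⟩ := exists_nat_ge (2 / (ε / 2))
    refine ⟨N + N', fun x hx => ?_⟩
    have h3 : ((Finset.range x).filter fun n => 2 * I ∣ n ∧ ¬ (2 ≤ n ∧ n ∈ setB α)).card ≤
        2 + ((Finset.range x).filter fun n => 2 * I ∣ n ∧ ¬ n ∈ setB α).card := by
      refine le_trans (Finset.card_le_card (t := Finset.range 2 ∪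
        (Finset.range x).filter fun n => 2 * I ∣ n ∧ ¬ n ∈ setB α) ?_)
        ((Finset.card_union_le _ _).trans (by rw [Finset.card_range]))
      intro n hn
      rw [Finset.mem_filter, Finset.mem_range] at hn
      rw [Finset.mem_union, Finset.mem_range, Finset.mem_filter, Finset.mem_range]
      by_cases h4 : 2 ≤ n
      · exact Or.inr ⟨hn.1, hn.2.1, fun h5 => hn.2.2 ⟨h4, h5⟩⟩
      · exact Or.inl (by omega)
    have h5 : (2 : ℝ) ≤ (ε / 2) * x := by
      have h6 : (N' : ℝ) ≤ x := by exact_mod_cast (by omega : N' ≤ x)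
      have h7 : 2 / (ε / 2) ≤ x := hN'.trans h6
      rw [div_le_iff₀ (by positivity)] at h7
      linarith
    have h8 := hN x (by omega)
    have h9 : ((((Finset.range x).filter fun n => 2 * I ∣ n ∧ ¬ (2 ≤ n ∧ n ∈ setB α)).card : ℕ) : ℝ) ≤
        ((2 + ((Finset.range x).filter fun n => 2 * I ∣ n ∧ ¬ n ∈ setB α).card : ℕ) : ℝ) :=
      Nat.cast_le.2 h3
    push_cast at h9
    refine le_trans (le_of_eq ?_) (h9.trans ?_)
    · congr!
    have h10 : (((Finset.range x).filter fun n => 2 * I ∣ n ∧ ¬ n ∈ setB α).card : ℝ) ≤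
        ε / 2 * x := h8
    linarith
  refine almostAll_mono h2 fun n hn χ hχ => ?_
  have hf : Finite (Wr B n) := finite_wr B n
  have hf2 : Finite (TwPow α χ n) := Finite.of_injective Subtype.val Subtype.val_injective
  refine realizableIff_of (twPr α χ n) (twPr_surj α hα χ n hn.1) (hn.2 χ ?_)
  rcases hχ with hχ | hχ
  · exact Or.inl ⟨I, hχ, hI⟩
  · exact Or.inr hχ

theorem alt_struct7 (hh : Hyp) (G : Type) [Group G] [Finite G] (q : ℕ) (hq : Even q)
    (hq4 : 4 ≤ q) :
    ∃ r₀ : ℕ, ∀ r ≥ r₀, ∃ k₀ : ℕ, ∀ k ≥ k₀, AltRealizable G (q * r * (2 * k + 1)) := by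
  obtain ⟨r₀, hr₀⟩ := t7u hh PUnit.{1} G 1 (fun _ => ⟨1, rfl⟩) q hq hq4
  refine ⟨r₀, fun r hr => ?_⟩
  obtain ⟨k₀, hk₀⟩ := hr₀ r hr (splitIdx_one G r)
  exact ⟨k₀, fun k hk => altRealizable_of G _ (hk₀ k hk 1 (Or.inr rfl))⟩

theorem alt_dens7 (hh : Hyp) (G : Type) [Group G] [Finite G] :
    AlmostAllMultiples 2 (fun n => AltRealizable G n) := by
  refine t_dens 1 _ one_pos fun q hq hq4 => ?_
  obtain ⟨r₀, hr₀⟩ := alt_struct7 hh G q hq hq4
  refine ⟨r₀, fun s hs _ => ?_⟩
  rw [one_mul]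
  exact hr₀ s hs

end Pool.Agent.N70.EQ
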